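import Pool.Agent.N167.TR.Stm
import Pool.Agent.N415.DY.Bar

/-!
# TR/8: smoothing

Project TR of helper167, part TR/8 (statement `S_smooth` of `Pool.Agent.N167.TR.Stm`), by helper27.
-/

set_option autoImplicit false

namespace Pool.Agent.N27.TR

open Set Filter Topology Pool.Agent.N167.TR

/-- the scalar inequality `y' ≤ G - l y` -/
theorem decay {y y' : ℝ → ℝ} {t₀ G l E : ℝ} (hl : 0 < l) (ht₀ : 0 ≤ t₀)
    (hd : ∀ s, t₀ ≤ s → HasDerivWithinAt y (y' s) (Ici 0) s)
    (hb : ∀ s, t₀ ≤ s → y' s ≤ G - l * y s) (h0 : y t₀ ≤ E) (hG : 0 ≤ G) {t : ℝ}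
    (ht : t₀ ≤ t) : y t ≤ G / l + E * Real.exp (-(l * (t - t₀))) := by
  have key := Pool.Agent.N415.DY.t_scalar (t - t₀) E
    (fun s => (y (t₀ + s) - G / l) * Real.exp (l * s))
    (fun s => y' (t₀ + s) * Real.exp (l * s) + (y (t₀ + s) - G / l) * (Real.exp (l * s) * l))
    (by linarith)
    (by
      intro s hs
      have h1 : HasDerivWithinAt (fun s : ℝ => t₀ + s) 1 (Icc 0 (t - t₀)) s :=
        ((hasDerivAt_id s).const_add t₀).hasDerivWithinAt
      have h2 : HasDerivWithinAt (fun s => y (t₀ + s)) (y' (t₀ + s)) (Icc 0 (t - t₀)) s := by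
        have h := HasDerivWithinAt.comp (h := fun s : ℝ => t₀ + s) (h₂ := y) (s' := Ici 0) s
          (hd (t₀ + s) (by linarith [hs.1])) h1
          (by
            intro u hu
            simp only [mem_Ici]
            linarith [hu.1])
        rw [mul_one] at h
        exact h
      have h3 : HasDerivWithinAt (fun s => Real.exp (l * s)) (Real.exp (l * s) * l)
          (Icc 0 (t - t₀)) s := by
        have := (((hasDerivAt_id s).const_mul l).exp).hasDerivWithinAt (s := Icc 0 (t - t₀))
        simpa using this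
      exact (h2.sub_const (G / l)).mul h3)
    (by
      simp only [add_zero, mul_zero, Real.exp_zero, mul_one]
      have : 0 ≤ G / l := div_nonneg hG hl.le
      linarith)
    (by
      intro s hs _
      have h1 := hb (t₀ + s) (by linarith [hs.1])
      have h2 : y' (t₀ + s) * Real.exp (l * s) +
          (y (t₀ + s) - G / l) * (Real.exp (l * s) * l) =
          (y' (t₀ + s) - (G - l * y (t₀ + s))) * Real.exp (l * s) := by
        field_simp
        ring
      rw [h2]
      exact mul_nonpos_of_nonpos_of_nonneg (by linarith) (Real.exp_pos _).le)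
    (t - t₀) ⟨by linarith, le_rfl⟩
  simp only [add_sub_cancel] at key
  have h1 : y t - G / l ≤ E * Real.exp (-(l * (t - t₀))) := by
    rw [Real.exp_neg, ← div_eq_mul_inv, le_div_iff₀ (Real.exp_pos _)]
    exact key
  linarith

/-- the positive part of a rapidly decreasing sequence -/
theorem rapid_pos {F : ℕ → ℝ} (hF : Rapid F) : Rapid fun n => max (F n) 0 := by
  intro s hs
  obtain ⟨C, hC⟩ := hF s hs
  refine ⟨max C 0, fun n => ?_⟩
  have h0 : 0 < s ^ n := pow_pos hs n
  change s ^ n * max (F n) 0 ≤ max C 0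
  rcases le_total (F n) 0 with h | h
  · rw [max_eq_right h, mul_zero]
    exact le_max_right _ _
  · rw [max_eq_left h]
    exact (hC n).trans (le_max_left _ _)

theorem rapid_add {F G : ℕ → ℝ} (hF : Rapid F) (hG : Rapid G) : Rapid fun n => F n + G n := by
  intro s hs
  obtain ⟨C, hC⟩ := hF s hs
  obtain ⟨C', hC'⟩ := hG s hs
  refine ⟨C + C', fun n => ?_⟩
  rw [mul_add]
  exact add_le_add (hC n) (hC' n)

theorem rapid_cmul {F : ℕ → ℝ} (hF : Rapid F) {c : ℝ} (hc : 0 ≤ c) :
    Rapid fun n => c * F n := by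
  intro s hs
  obtain ⟨C, hC⟩ := hF s hs
  refine ⟨c * C, fun n => ?_⟩
  have := mul_le_mul_of_nonneg_left (hC n) hc
  linarith

theorem rapid_mono {F G : ℕ → ℝ} (hF : Rapid F) (h : ∀ n, G n ≤ F n) : Rapid G := by
  intro s hs
  obtain ⟨C, hC⟩ := hF s hs
  exact ⟨C, fun n => (mul_le_mul_of_nonneg_left (h n) (pow_pos hs n).le).trans (hC n)⟩

/-- the exponential term -/
theorem rapid_exp {D c : ℝ} (hD : 1 < D) (hc : 0 < c) :
    Rapid fun n : ℕ => Real.exp (-(c * D ^ n / ((n + 1) * (n + 2)))) := by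
  intro s hs
  set L : ℝ := max (Real.log s) 0 with hL
  have hL0 : 0 ≤ L := le_max_right _ _
  have h1 : Tendsto (fun n : ℕ => (6 * L) * ((n : ℝ) ^ 3 / D ^ n)) atTop (𝓝 (6 * L * 0)) :=
    (tendsto_pow_const_div_const_pow_of_one_lt 3 hD).const_mul _
  rw [mul_zero] at h1
  have h2 : ∀ᶠ n : ℕ in atTop, (6 * L) * ((n : ℝ) ^ 3 / D ^ n) < c := h1.eventually (gt_mem_nhds hc)
  have h3 : ∀ᶠ n : ℕ in atTop,
      s ^ n * Real.exp (-(c * D ^ n / ((n + 1) * (n + 2)))) ≤ 1 := by
    filter_upwards [h2, eventually_ge_atTop 1] with n hn hn1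
    have hDn : 0 < D ^ n := pow_pos (by linarith) n
    have hn1' : (1 : ℝ) ≤ n := by exact_mod_cast hn1
    have e1 : s ^ n = Real.exp (n * Real.log s) := by
      rw [mul_comm, Real.exp_mul, Real.exp_log hs, Real.rpow_natCast]
    rw [e1, ← Real.exp_add]
    apply Real.exp_le_one_iff.2
    have e2 : (n : ℝ) * Real.log s ≤ n * L :=
      mul_le_mul_of_nonneg_left (le_max_left _ _) (by linarith)
    have e3 : (n : ℝ) * L ≤ c * D ^ n / ((n + 1) * (n + 2)) := by
      rw [le_div_iff₀ (by positivity)]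
      have e4 : (6 * L) * (n : ℝ) ^ 3 ≤ c * D ^ n := by
        have := mul_le_mul_of_nonneg_right hn.le hDn.le
        have e5 : (6 * L) * ((n : ℝ) ^ 3 / D ^ n) * D ^ n = (6 * L) * (n : ℝ) ^ 3 := by
          field_simp
        linarith
      refine le_trans ?_ e4
      have e6 : ((n : ℝ) + 1) * (n + 2) ≤ 6 * n ^ 2 := by nlinarith
      calc (n : ℝ) * L * ((n + 1) * (n + 2)) ≤ (n : ℝ) * L * (6 * n ^ 2) :=
            mul_le_mul_of_nonneg_left e6 (by positivity)
        _ = (6 * L) * (n : ℝ) ^ 3 := by ring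
    linarith
  have h4 : IsBoundedUnder (· ≤ ·) atTop
      fun n : ℕ => s ^ n * Real.exp (-(c * D ^ n / ((n + 1) * (n + 2)))) :=
    isBoundedUnder_of_eventually_le h3
  obtain ⟨C, hC⟩ := h4.bddAbove_range
  exact ⟨C, fun n => hC ⟨n, rfl⟩⟩

/-- the bounds -/
noncomputable def bd (B D ν : ℝ) (A h : ℕ → ℝ) : ℕ → ℝ
  | 0 => max (A 0) 0
  | n + 1 => min (max (A (n + 1)) 0) (h (n + 1) + B ^ n * bd B D ν A h n ^ 2 / (ν * D ^ (n + 1)))

/-- the induction over the generations -/
theorem core (hboot : S_boot) {M : ℕ} {B D ν θ : ℝ} {F A : ℕ → ℝ} {N₀ : ℕ}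
    {f : List (Fin M) → ℝ → ℝ} {x : List (Fin M) → ℝ} {X : List (Fin M) → ℝ → ℝ}
    (hB : 0 < B) (hD : 1 < D) (hν : 0 < ν) (hθ : θ < 1) (hF : Force F f) (hX : IsSol B D ν f x X)
    (hA : ∀ j, ∀ t, 0 ≤ t → 0 ≤ X j t ∧ X j t ≤ A j.length)
    (hcr : ∀ n, N₀ ≤ n → B / D * (B ^ n * A n) ≤ θ * (ν * D ^ (n + 1)))
    (T : ℕ → ℝ) (hT0 : ∀ n, 0 ≤ T n) (hTm : ∀ n, T n ≤ T (n + 1)) (e : ℕ → ℝ) (he : ∀ n, 0 ≤ e n)
    (heR : Rapid e)
    (hstep : ∀ (k : Fin M) (j : List (Fin M)) (G : ℝ), 0 ≤ G →
      (∀ s, T j.length ≤ s → rhs B D ν (fun i => f i s) (fun i => X i s) (k :: j) ≤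
        G - ν * D ^ (j.length + 1) * X (k :: j) s) →
      ∀ t, T (j.length + 1) ≤ t →
        X (k :: j) t ≤ G / (ν * D ^ (j.length + 1)) + e (j.length + 1)) :
    ∃ a : ℕ → ℝ, Rapid a ∧ ∀ j, ∀ t, T j.length ≤ t → X j t ≤ a j.length := by
  obtain ⟨hF1, -, hF3⟩ := hF
  have hD0 : 0 < D := by linarith
  set h : ℕ → ℝ := fun n => max (F n) 0 / (ν * D ^ n) + e n with hh
  have hh0 : ∀ n, 0 ≤ h n := fun n => add_nonneg (div_nonneg (le_max_right _ _) (by positivity)) (he n)
  have hhR : Rapid h := by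
    refine rapid_mono (rapid_add (rapid_cmul (rapid_pos hF1) (c := ν⁻¹) (by positivity)) heR) fun n => ?_
    simp only [hh]
    have h1 : (1 : ℝ) ≤ D ^ n := one_le_pow₀ hD.le
    have h2 : max (F n) 0 / (ν * D ^ n) ≤ ν⁻¹ * max (F n) 0 := by
      rw [div_le_iff₀ (by positivity)]
      have h3 : ν⁻¹ * max (F n) 0 * (ν * D ^ n) = max (F n) 0 * D ^ n := by
        field_simp
      rw [h3]
      exact le_mul_of_one_le_right (le_max_right _ _) h1
    linarith
  set a : ℕ → ℝ := bd B D ν A h with ha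
  have ha0 : ∀ n, 0 ≤ a n := by
    intro n
    induction n with
    | zero => exact le_max_right _ _
    | succ n _ =>
      exact le_min (le_max_right _ _)
        (add_nonneg (hh0 _) (div_nonneg (mul_nonneg (pow_pos hB n).le (sq_nonneg _))
          (by positivity)))
  have haA : ∀ n, a n ≤ max (A n) 0 := by
    intro n
    cases n with
    | zero => exact le_rfl
    | succ n => exact min_le_left _ _
  refine ⟨a, ?_, ?_⟩
  · refine hboot B D ν (max θ 0) a (fun n => max (A n) 0) h N₀ hB hD hν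
      (max_lt hθ one_pos) ha0 haA hh0 hhR (fun n => min_le_right _ _) fun n hn => ?_
    have h1 := hcr n hn
    have h2 : 0 < ν * D ^ (n + 1) := by positivity
    have h3 : θ * (ν * D ^ (n + 1)) ≤ max θ 0 * (ν * D ^ (n + 1)) :=
      mul_le_mul_of_nonneg_right (le_max_left _ _) h2.le
    have h4 : 0 ≤ max θ 0 * (ν * D ^ (n + 1)) := mul_nonneg (le_max_right _ _) h2.le
    rcases le_total (A n) 0 with h | h
    · simp only [max_eq_right h, mul_zero]
      exact h4
    · simp only [max_eq_left h]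
      linarith
  · intro j
    induction j with
    | nil =>
      intro t ht
      exact ((hA [] t ((hT0 _).trans ht)).2).trans (le_max_left _ _)
    | cons k j ih =>
      intro t ht
      rw [List.length_cons] at ht ⊢
      have ht0 : 0 ≤ t := (hT0 _).trans ht
      have e1 : a (j.length + 1) = min (max (A (j.length + 1)) 0)
        (h (j.length + 1) + B ^ j.length * a j.length ^ 2 / (ν * D ^ (j.length + 1))) := rfl
      rw [e1]
      refine le_min (((hA (k :: j) t ht0).2).trans (le_max_left _ _)) ?_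
      have h1 := hstep k j (max (F (j.length + 1)) 0 + B ^ j.length * a j.length ^ 2)
        (add_nonneg (le_max_right _ _) (mul_nonneg (pow_pos hB _).le (sq_nonneg _)))
        (by
          intro s hs
          have hs0 : 0 ≤ s := (hT0 _).trans hs
          have g1 : f (k :: j) s ≤ max (F (j.length + 1)) 0 :=
            ((hF3 (k :: j) s hs0).2).trans (le_max_left _ _)
          have g2 : X j s ^ 2 ≤ a j.length ^ 2 :=
            pow_le_pow_left₀ (hA j s hs0).1 (ih s hs) 2
          have g3 : B ^ j.length * X j s ^ 2 ≤ B ^ j.length * a j.length ^ 2 :=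
            mul_le_mul_of_nonneg_left g2 (pow_pos hB _).le
          have g4 : 0 ≤ B ^ (k :: j).length * X (k :: j) s * ∑ l : Fin M, X (l :: k :: j) s :=
            mul_nonneg (mul_nonneg (pow_pos hB _).le (hA _ s hs0).1)
              (Finset.sum_nonneg fun l _ => (hA _ s hs0).1)
          simp only [rhs, inflow, List.length_cons] at g4 ⊢
          linarith) t ht
      refine h1.trans (le_of_eq ?_)
      simp only [hh, add_div]
      ring

/-- **TR/8.** -/
theorem t_smooth : S_smooth := by
  intro hboot M B D ν θ F A N₀ f x X hB hD hν hθ hF hX hA hE hcr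
  have hD0 : 0 < D := by linarith
  obtain ⟨E, hE⟩ := hE
  have hE0 : 0 ≤ E := (hA [] 0 le_rfl).1.trans (hE [] 0 le_rfl)
  have hder : ∀ j, ∀ t₀, 0 ≤ t₀ → ∀ s, t₀ ≤ s →
      HasDerivWithinAt (X j) (rhs B D ν (fun i => f i s) (fun i => X i s) j) (Ici 0) s :=
    fun j t₀ h0 s hs => hX.2 j s (h0.trans hs)
  constructor
  · intro τ hτ
    set T : ℕ → ℝ := fun n => τ * (1 - 1 / ((n : ℝ) + 2)) with hT
    have hTle : ∀ n, T n ≤ τ := by
      intro n
      simp only [hT]
      have : 0 < 1 / ((n : ℝ) + 2) := by positivity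
      nlinarith
    have hT0 : ∀ n, 0 ≤ T n := by
      intro n
      simp only [hT]
      have : 1 / ((n : ℝ) + 2) ≤ 1 := by
        rw [div_le_one (by positivity)]
        have : (0 : ℝ) ≤ n := Nat.cast_nonneg n
        linarith
      exact mul_nonneg hτ.le (by linarith)
    have hTs : ∀ n, T (n + 1) - T n = τ / (((n : ℝ) + 2) * (n + 3)) := by
      intro n
      simp only [hT]
      push_cast
      field_simp
      ring
    have hTm : ∀ n, T n ≤ T (n + 1) := by
      intro n
      have h1 := hTs n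
      have h2 : 0 ≤ τ / (((n : ℝ) + 2) * (n + 3)) := by positivity
      linarith
    obtain ⟨a, ha, h⟩ := core hboot hB hD hν hθ hF hX hA hcr T hT0 hTm
      (fun n : ℕ => E * Real.exp (-(ν * τ * D ^ n / ((n + 1) * (n + 2)))))
      (fun n => mul_nonneg hE0 (Real.exp_pos _).le)
      (rapid_cmul (rapid_exp hD (mul_pos hν hτ)) hE0)
      (by
        intro k j G hG hb t ht
        have h1 := decay (y := X (k :: j))
          (y' := fun s => rhs B D ν (fun i => f i s) (fun i => X i s) (k :: j))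
          (l := ν * D ^ (j.length + 1)) (by positivity) (hT0 j.length)
          (hder (k :: j) _ (hT0 _)) hb (hE (k :: j) _ (hT0 _)) hG (t := t)
          ((hTm _).trans ht)
        refine h1.trans (add_le_add le_rfl (mul_le_mul_of_nonneg_left (Real.exp_le_exp.2 ?_) hE0))
        have h2 := hTs j.length
        have h3 : τ / (((j.length : ℝ) + 2) * (j.length + 3)) ≤ t - T j.length := by linarith
        have h4 := mul_le_mul_of_nonneg_left h3 (by positivity : 0 ≤ ν * D ^ (j.length + 1))
        have h5 : ν * D ^ (j.length + 1) * (τ / (((j.length : ℝ) + 2) * (j.length + 3))) =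
            ν * τ * D ^ (j.length + 1) /
              (((j.length + 1 : ℕ) + 1 : ℝ) * ((j.length + 1 : ℕ) + 2)) := by
          push_cast
          field_simp
          ring
        linarith)
    exact ⟨a, ha, fun j t ht => h j t ((hTle _).trans ht)⟩
  · intro y hy hxy
    obtain ⟨a, ha, h⟩ := core hboot hB hD hν hθ hF hX hA hcr (fun _ => 0) (fun _ => le_rfl)
      (fun _ => le_rfl) (fun n : ℕ => max (y n) 0) (fun n => le_max_right _ _) (rapid_pos hy)
      (by
        intro k j G hG hb t ht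
        have h1 := decay (y := X (k :: j))
          (y' := fun s => rhs B D ν (fun i => f i s) (fun i => X i s) (k :: j))
          (l := ν * D ^ (j.length + 1)) (by positivity) le_rfl
          (hder (k :: j) _ le_rfl) hb (E := max (y (j.length + 1)) 0)
          (by
            rw [hX.1]
            exact (hxy (k :: j)).trans (le_max_left _ _)) hG (t := t) ht
        refine h1.trans (add_le_add le_rfl ?_)
        refine mul_le_of_le_one_right (le_max_right _ _) (Real.exp_le_one_iff.2 ?_)
        have : 0 ≤ ν * D ^ (j.length + 1) * (t - 0) := mul_nonneg (by positivity) (by simpa using ht)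
        linarith)
    exact ⟨a, ha, fun j t ht => h j t ht⟩

end Pool.Agent.N27.TR
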